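import Pool.Agent.U74.DSep.Tree

/-!
# The tree is `ω`-distributive

Countably many up-closed cofinal sets of nodes have a common element above every node.
-/

open Set Cardinal

namespace Pool.U74.DSep

theorem list_lt (s : List K) (β t0 δ : K) (hs : ∀ a ∈ s, a < δ) (hβ : β < δ) (ht : t0 < δ) :
    ∃ b < δ, (∀ a ∈ s, a ≤ b) ∧ β ≤ b ∧ t0 ≤ b := by
  induction s with
  | nil => exact ⟨max β t0, max_lt hβ ht, by simp, le_max_left _ _, le_max_right _ _⟩
  | cons x s ih =>
    obtain ⟨b, hb, h1, h2, h3⟩ := ih (fun a ha => hs a (List.mem_cons_of_mem _ ha))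
    refine ⟨max x b, max_lt (hs x (List.mem_cons_self)) hb, ?_, h2.trans (le_max_right _ _),
      h3.trans (le_max_right _ _)⟩
    intro a ha
    rcases List.mem_cons.1 ha with rfl | ha
    · exact le_max_left _ _
    · exact (h1 a ha).trans (le_max_right _ _)

theorem baire (E : ℕ → Set Node) (hup : ∀ n t t', t ∈ E n → t ≤ t' → t' ∈ E n)
    (hcof : ∀ n t, ∃ t' ∈ E n, t ≤ t') (t0 : Node) : ∃ t, t0 ≤ t ∧ ∀ n, t ∈ E n := by
  have hF : ∀ (n : ℕ) (t : Node) (α : K), ∃ t', t' ∈ E n ∧ t ≤ t' ∧ α < t'.m := by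
    intro n t α
    obtain ⟨a, h1, h2⟩ := exists_gt2 t.m α
    obtain ⟨u, hu1, hu2, -⟩ := exists_ext t a h1
    obtain ⟨t', ht', hut⟩ := hcof n u
    exact ⟨t', ht', hu1.trans hut, by rw [← hu2] at h2; exact h2.trans_le hut.1⟩
  choose F hF1 hF2 hF3 using hF
  let T : List K → Node := fun s => List.rec t0 (fun α s ih => F s.length ih α) s
  have hT0 : T [] = t0 := rfl
  have hT : ∀ α s, T (α :: s) = F s.length (T s) α := fun α s => rfl
  let col : List K → {D : Set (ℝ × Bool) // D.Countable} := fun s =>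
    ⟨declAll (T s).A, declAll_countable _⟩
  obtain ⟨q, G, hG0, hG⟩ := hom col mk_countable_sets
  have hD : (⋃ n, (q n).1).Countable := countable_iUnion fun n => (q n).2
  -- choice of successors
  have hh : ∀ (s : List K) (β : K), ∃ α, s ∈ G → β < α ∧ α :: s ∈ G := by
    intro s β
    by_cases h : s ∈ G
    · obtain ⟨α, hα⟩ := (hG s h).2 β
      exact ⟨α, fun _ => hα⟩
    · exact ⟨β, fun h' => absurd h' h⟩
  choose h hh using hh
  -- closure function
  have hg : ∀ b : K, ∃ c, (∀ (s : List K) (β : K), (∀ a ∈ s, a ≤ b) → β ≤ b →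
      h s β < c ∧ (T (h s β :: s)).m < c) ∧ t0.m < c := by
    intro b
    have hcard : #(List (Iic b) × (Iic b)) ≤ 𝔠 := by
      rw [mk_prod]
      simp only [lift_id]
      calc #(List (Iic b)) * #(Iic b) ≤ 𝔠 * 𝔠 := by
            gcongr
            · refine (mk_list_le_max _).trans (max_le aleph0_le_continuum (mk_Iic_le b))
            · exact mk_Iic_le b
        _ = 𝔠 := by simp
    obtain ⟨c, hc⟩ := bdd (List (Iic b) × (Iic b)) hcard (fun p =>
      max (h (p.1.map Subtype.val) p.2) (T (h (p.1.map Subtype.val) p.2 :: (p.1.map Subtype.val))).m)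
    obtain ⟨c', h1, h2⟩ := exists_gt2 c t0.m
    refine ⟨c', ?_, h2⟩
    intro s β hs hβ
    have hs' : ∃ s' : List (Iic b), s'.map Subtype.val = s := by
      refine ⟨s.attach.map (fun x => (⟨x.1, hs x.1 x.2⟩ : Iic b)), ?_⟩
      simp [List.map_map, Function.comp_def]
    obtain ⟨s', rfl⟩ := hs'
    have := hc (s', ⟨β, hβ⟩)
    have h3 := max_lt_iff.1 this
    exact ⟨h3.1.trans h1, h3.2.trans h1⟩
  choose g hg1 hg2 using hg
  obtain ⟨δ, hδS, hcl, x, hx1, hx2⟩ := S_stat _ hD g
  have ht0 : t0.m < δ := (hg2 (x 0)).trans (hcl _ (hx1 0))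
  -- the branch
  have hstep : ∀ (n : ℕ) (s : List K), s ∈ G → (∀ a ∈ s, a < δ) →
      h s (x n) :: s ∈ G ∧ (∀ a ∈ h s (x n) :: s, a < δ) ∧ x n < h s (x n) ∧
        (T (h s (x n) :: s)).m < δ := by
    intro n s hs hsδ
    obtain ⟨b, hb, h1, h2, h3⟩ := list_lt s (x n) t0.m δ hsδ (hx1 n) ht0
    have h4 := hg1 b s (x n) h1 h2
    have h5 := hh s (x n) hs
    refine ⟨h5.2, ?_, h5.1, h4.2.trans (hcl b hb)⟩
    intro a ha
    rcases List.mem_cons.1 ha with rfl | ha
    · exact h4.1.trans (hcl b hb)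
    · exact hsδ a ha
  let s : ℕ → List K := fun n => Nat.rec [] (fun n s => h s (x n) :: s) n
  have hs1 : ∀ n, s (n + 1) = h (s n) (x n) :: s n := fun n => rfl
  have hsG : ∀ n, s n ∈ G ∧ (∀ a ∈ s n, a < δ) := by
    intro n
    induction n with
    | zero => exact ⟨hG0, by simp [s]⟩
    | succ n ih =>
      rw [hs1]
      exact ⟨(hstep n _ ih.1 ih.2).1, (hstep n _ ih.1 ih.2).2.1⟩
  have hlen : ∀ n, (s n).length = n := by
    intro n
    induction n with
    | zero => rfl
    | succ n ih => rw [hs1]; simp [ih]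
  have hTs : ∀ n, T (s (n + 1)) = F n (T (s n)) (h (s n) (x n)) := by
    intro n
    rw [hs1, hT, hlen]
  have hm : ∀ n, (T (s n)).m < δ := by
    intro n
    cases n with
    | zero => exact ht0
    | succ n =>
      rw [hs1]
      exact (hstep n _ (hsG n).1 (hsG n).2).2.2.2
  obtain ⟨t', ht', -⟩ := exists_limit (fun n => T (s n)) (fun n => by
      show T (s n) ≤ T (s (n + 1))
      rw [hTs]
      exact hF2 _ _ _) δ hm (fun b hb => by
      obtain ⟨n, hn⟩ := hx2 b hb
      refine ⟨n + 1, ?_⟩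
      show b < (T (s (n + 1))).m
      rw [hTs]
      exact (hn.trans (hstep n _ (hsG n).1 (hsG n).2).2.2.1).trans (hF3 _ _ _)) (by
      have : (⋃ n, declAll (T (s n)).A) = ⋃ n, (q n).1 := by
        apply iUnion_congr
        intro n
        have := (hG (s n) (hsG n).1).1
        rw [hlen] at this
        rw [← this]
      rw [this]
      exact hδS)
  refine ⟨t', ht' 0, fun n => ?_⟩
  refine hup n (T (s (n + 1))) t' ?_ (ht' (n + 1))
  rw [hTs]
  exact hF1 _ _ _

end Pool.U74.DSep
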