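import Mathlib

/-!
# Disjoint stationary sets of the cardinal `𝔠⁺` (points of countable cofinality)

`K` is the well order of type `𝔠⁺`.  `Stat S` says that for every `g : K → K` the set `S`
contains a point of countable cofinality closed under `g`.
-/

open Set Cardinal

namespace Pool.U74.DSep

/-- The initial ordinal `𝔠⁺` as a well ordered type. -/
abbrev K : Type := (Order.succ Cardinal.continuum.{0}).ord.ToType

theorem mk_K : #K = Order.succ (𝔠 : Cardinal.{0}) := by simp [K]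

instance : Nonempty K := by
  rw [← Cardinal.mk_ne_zero_iff, mk_K]
  exact (lt_of_le_of_lt (bot_le (a := (𝔠 : Cardinal.{0}))) (Order.lt_succ _)).ne'

theorem isReg : Cardinal.IsRegular (Order.succ (𝔠 : Cardinal.{0})) :=
  Cardinal.isRegular_succ aleph0_le_continuum

theorem cof_K : Order.cof K = Order.succ (𝔠 : Cardinal.{0}) := by
  rw [Ordinal.cof_toType]
  exact isReg.cof_ord

/-- Families of at most continuum many elements are strictly bounded. -/
theorem bdd (I : Type) (hI : #I ≤ 𝔠) (f : I → K) : ∃ b : K, ∀ i, f i < b := by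
  by_contra h
  push Not at h
  have h1 : IsCofinal (range f) := by
    intro a
    obtain ⟨i, hi⟩ := h a
    exact ⟨f i, ⟨i, rfl⟩, hi⟩
  have h2 := Order.cof_le h1
  rw [cof_K] at h2
  have h3 : #(range f) ≤ 𝔠 := mk_range_le.trans hI
  exact absurd (h2.trans h3) (not_le.2 (Order.lt_succ _))

theorem exists_gt (x : K) : ∃ b, x < b := by
  obtain ⟨b, hb⟩ := bdd Unit (by simpa using (nat_lt_continuum 1).le) (fun _ => x)
  exact ⟨b, hb ()⟩

theorem exists_gt2 (x y : K) : ∃ b, x < b ∧ y < b := by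
  obtain ⟨b, hb⟩ := exists_gt (max x y)
  exact ⟨b, lt_of_le_of_lt (le_max_left _ _) hb, lt_of_le_of_lt (le_max_right _ _) hb⟩

theorem mk_Iio_le (b : K) : #(Iio b) ≤ 𝔠 := by
  have h : #(Iio b) < #K := by
    apply mk_Iio_lt b
    simp [K]
  rw [mk_K] at h
  exact Order.lt_succ_iff.1 h

theorem mk_Iic_le (b : K) : #(Iic b) ≤ 𝔠 := by
  obtain ⟨b', hb'⟩ := exists_gt b
  refine le_trans (mk_le_mk_of_subset ?_) (mk_Iio_le b')
  intro x hx
  exact lt_of_le_of_lt hx hb'

/-- `δ` is closed under `g`. -/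
def Clo (g : K → K) (δ : K) : Prop := ∀ b < δ, g b < δ

/-- `δ` has countable cofinality (and is a limit). -/
def CofW (δ : K) : Prop := ∃ x : ℕ → K, (∀ n, x n < δ) ∧ ∀ b < δ, ∃ n, b < x n

/-- Stationarity, for subsets of the points of countable cofinality. -/
def Stat (S : Set K) : Prop := ∀ g : K → K, ∃ δ ∈ S, Clo g δ ∧ CofW δ

theorem exists_lsub (x : ℕ → K) : ∃ δ, (∀ n, x n < δ) ∧ ∀ b < δ, ∃ n, b ≤ x n := by
  obtain ⟨b, hb⟩ := bdd ℕ (by simpa using aleph0_le_continuum) x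
  obtain ⟨δ, hδ, hmin⟩ := WellFounded.has_min (wellFounded_lt (α := K)) {b | ∀ n, x n < b} ⟨b, hb⟩
  refine ⟨δ, hδ, fun c hc => ?_⟩
  by_contra h
  push Not at h
  exact hmin c h hc

theorem exists_closed (g : K → K) (b0 : K) : ∃ δ, b0 < δ ∧ Clo g δ ∧ CofW δ := by
  have step : ∀ x : K, ∃ y, x < y ∧ ∀ b ≤ x, g b < y := by
    intro x
    obtain ⟨y, hy⟩ := bdd (Iic x) (mk_Iic_le x) (fun i => max (g i) x)
    refine ⟨y, lt_of_le_of_lt (le_max_right (g x) x) (hy ⟨x, le_refl x⟩), fun b hb => ?_⟩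
    exact lt_of_le_of_lt (le_max_left _ _) (hy ⟨b, hb⟩)
  choose st hst1 hst2 using step
  let x : ℕ → K := fun n => Nat.rec b0 (fun _ y => st y) n
  have hx : ∀ n, x (n + 1) = st (x n) := fun n => rfl
  obtain ⟨δ, h1, h2⟩ := exists_lsub x
  refine ⟨δ, h1 0, ?_, x, h1, ?_⟩
  · intro b hb
    obtain ⟨n, hn⟩ := h2 b hb
    have := hst2 (x n) b hn
    rw [← hx] at this
    exact lt_trans this (h1 (n + 1))
  · intro b hb
    obtain ⟨n, hn⟩ := h2 b hb
    refine ⟨n + 1, ?_⟩
    rw [hx]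
    exact lt_of_le_of_lt hn (hst1 _)

theorem stat_Ioi (b0 : K) : Stat {δ | b0 < δ} := by
  intro g
  obtain ⟨δ, h1, h2, h3⟩ := exists_closed g b0
  exact ⟨δ, h1, h2, h3⟩

theorem stat_iUnion {I : Type} (hI : #I ≤ 𝔠) (S : I → Set K) (h : Stat (⋃ i, S i)) :
    ∃ i, Stat (S i) := by
  by_contra hn
  push Not at hn
  unfold Stat at hn
  push Not at hn
  choose g hg using hn
  have : ∀ b : K, ∃ c, ∀ i, g i b < c := fun b => bdd I hI (fun i => g i b)
  choose G hG using this
  obtain ⟨δ, hδ, hcl, hcof⟩ := h G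
  obtain ⟨i, hi⟩ := mem_iUnion.1 hδ
  exact hg i δ hi (fun b hb => (hG b i).trans (hcl b hb)) hcof

/-- Any family of at most continuum many stationary sets... : there are pairwise disjoint
stationary sets indexed by any type with at most continuum many elements (Ulam). -/
theorem exists_partition (Q : Type) (hQ : #Q ≤ 𝔠) :
    ∃ S : Q → Set K, (∀ q, Stat (S q)) ∧ ∀ q q' δ, δ ∈ S q → δ ∈ S q' → q = q' := by
  have hemb : ∀ δ : K, Nonempty (Iio δ ↪ (ℕ → Bool)) := by
    intro δ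
    have : #(Iio δ) ≤ #(ℕ → Bool) := by
      refine (mk_Iio_le δ).trans ?_
      simp
    exact this
  let e : ∀ δ : K, Iio δ ↪ (ℕ → Bool) := fun δ => (hemb δ).some
  let A : K → (ℕ → Bool) → Set K := fun b c => {δ | ∃ h : b < δ, e δ ⟨b, h⟩ = c}
  have hU : ∀ b, Stat (⋃ c, A b c) := by
    intro b
    have : (⋃ c, A b c) = {δ | b < δ} := by
      ext δ
      simp only [mem_iUnion, mem_ofPred_eq, A]
      constructor
      · rintro ⟨c, h, -⟩
        exact h
      · intro h
        exact ⟨_, h, rfl⟩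
    rw [this]
    exact stat_Ioi b
  have hc : ∀ b, ∃ c, Stat (A b c) := fun b =>
    stat_iUnion (by simp) (A b) (hU b)
  choose c hc using hc
  obtain ⟨c0, hc0⟩ := infinite_pigeonhole_card c (Order.succ 𝔠) (by rw [mk_K])
    isReg.aleph0_le (by
      have h := isReg.cof_ord
      rw [h]
      refine lt_of_le_of_lt (le_of_eq ?_) (Order.lt_succ (𝔠 : Cardinal.{0}))
      simp)
  have hQ' : #Q ≤ #(c ⁻¹' {c0}) := (hQ.trans (Order.le_succ _)).trans hc0
  obtain ⟨j⟩ : Nonempty (Q ↪ (c ⁻¹' {c0} : Set K)) := hQ'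
  refine ⟨fun q => A (j q) c0, fun q => ?_, ?_⟩
  · have := hc (j q)
    have h2 : c (j q) = c0 := (j q).2
    rwa [h2] at this
  · rintro q q' δ ⟨h, hh⟩ ⟨h', hh'⟩
    have := (e δ).injective (hh.trans hh'.symm)
    have h3 := congrArg (fun z : Iio δ => z.1) this
    exact j.injective (Subtype.ext h3)

end Pool.U74.DSep
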