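import Pool.Agent.U74.DSep.Base

/-!
# A homogenisation lemma for `𝔠⁺`-branching trees

Given a colouring of the finite sequences of elements of `K` (lists, read from the right) with at
most continuum many colours, there is a subtree in which every node has unboundedly many
successors and in which the colour of a node depends only on its length.
-/

open Set Cardinal

namespace Pool.U74.DSep

variable {C : Type} (col : List K → C) (q : ℕ → C)

/-- `NG ξ s`: player I wins from `s` with rank at most `ξ`. -/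
def NG : Ordinal.{0} → List K → Prop
  | ξ => fun s => ∃ β : K, ∀ α, β < α → col (α :: s) = q (s.length + 1) →
      ∃ η, ∃ _ : η < ξ, NG η (α :: s)
termination_by ξ => ξ

theorem NG_iff (ξ : Ordinal.{0}) (s : List K) :
    NG col q ξ s ↔ ∃ β : K, ∀ α, β < α → col (α :: s) = q (s.length + 1) →
      ∃ η < ξ, NG col q η (α :: s) := by
  rw [NG]
  simp only [exists_prop]

/-- all suffixes have the right colour -/
def Ok (s : List K) : Prop := ∀ u, u <:+ s → col u = q u.length

theorem good_of_not (h0 : col [] = q 0) (h : ¬ ∃ ξ, NG col q ξ []) :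
    ∃ G : Set (List K), [] ∈ G ∧ ∀ s ∈ G, col s = q s.length ∧ ∀ β : K, ∃ α, β < α ∧ α :: s ∈ G := by
  refine ⟨{s | Ok col q s ∧ ¬ ∃ ξ, NG col q ξ s}, ⟨?_, h⟩, ?_⟩
  · intro u hu
    rw [List.suffix_nil.1 hu]
    exact h0
  · rintro s ⟨hs, hng⟩
    refine ⟨hs s (List.suffix_refl s), fun β => ?_⟩
    by_contra hcon
    apply hng
    have hc : ∀ α, β < α → col (α :: s) = q (s.length + 1) → ∃ ξ, NG col q ξ (α :: s) := by
      intro α hα hcol
      by_contra hno
      refine hcon ⟨α, hα, ?_, hno⟩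
      intro u hu
      rcases List.suffix_cons_iff.1 hu with rfl | hu'
      · simpa using hcol
      · exact hs u hu'
    classical
    let r : K → Ordinal.{0} := fun α =>
      if h : ∃ ξ, NG col q ξ (α :: s) then h.choose + 1 else 0
    refine ⟨⨆ α, r α, ?_⟩
    rw [NG_iff]
    refine ⟨β, fun α hα hcol => ?_⟩
    have hex := hc α hα hcol
    refine ⟨hex.choose, ?_, hex.choose_spec⟩
    have h1 : r α = hex.choose + 1 := by
      simp only [r, dif_pos hex]
    have h2 : r α ≤ ⨆ α, r α := Ordinal.le_iSup r α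
    rw [h1] at h2
    exact lt_of_lt_of_le (by simp) h2

theorem hom (hC : #C ≤ 𝔠) : ∃ (q : ℕ → C) (G : Set (List K)), [] ∈ G ∧
    ∀ s ∈ G, col s = q s.length ∧ ∀ β : K, ∃ α, β < α ∧ α :: s ∈ G := by
  by_contra hcon
  have hng : ∀ q : ℕ → C, col [] = q 0 → ∃ ξ, NG col q ξ [] := by
    intro q h0
    by_contra h
    exact hcon ⟨q, good_of_not col q h0 h⟩
  classical
  -- ranks
  let rk : (ℕ → C) → List K → Ordinal.{0} := fun q s => sInf {ξ | NG col q ξ s}
  have hrk : ∀ q s, (∃ ξ, NG col q ξ s) → NG col q (rk q s) s := by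
    intro q s h
    exact csInf_mem h
  have hβ : ∀ q s, ∃ β : K, (∃ ξ, NG col q ξ s) → ∀ α, β < α → col (α :: s) = q (s.length + 1) →
      (∃ ξ, NG col q ξ (α :: s)) ∧ rk q (α :: s) < rk q s := by
    intro q s
    by_cases h : ∃ ξ, NG col q ξ s
    · have h1 := hrk q s h
      rw [NG_iff] at h1
      obtain ⟨β, hβ⟩ := h1
      refine ⟨β, fun _ α hα hcol => ?_⟩
      obtain ⟨η, hη, hη2⟩ := hβ α hα hcol
      refine ⟨⟨η, hη2⟩, ?_⟩
      exact lt_of_le_of_lt (csInf_le' hη2) hη
    · obtain ⟨b, -⟩ := exists_closed id (Classical.arbitrary K)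
      exact ⟨b, fun h' => absurd h' h⟩
  choose β hβ using hβ
  have hCN : #(ℕ → C) ≤ 𝔠 := by
    have : #(ℕ → C) = #C ^ (ℵ₀ : Cardinal.{0}) := by simp
    rw [this]
    calc #C ^ (ℵ₀ : Cardinal.{0}) ≤ 𝔠 ^ (ℵ₀ : Cardinal.{0}) := Cardinal.power_le_power_right hC
      _ = 𝔠 := continuum_power_aleph0
  have hα : ∀ s, ∃ α, ∀ q, β q s < α := fun s => bdd (ℕ → C) hCN (fun q => β q s)
  choose α hα using hα
  let s : ℕ → List K := fun n => Nat.rec [] (fun _ s => α s :: s) n
  have hs : ∀ n, s (n + 1) = α (s n) :: s n := fun n => rfl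
  have hlen : ∀ n, (s n).length = n := by
    intro n
    induction n with
    | zero => rfl
    | succ n ih => rw [hs]; simp [ih]
  let q : ℕ → C := fun n => col (s n)
  have hall : ∀ n, (∃ ξ, NG col q ξ (s n)) := by
    intro n
    induction n with
    | zero => exact hng q rfl
    | succ n ih =>
      have := hβ q (s n) ih (α (s n)) (hα (s n) q) (by rw [hlen])
      exact this.1
  have hdec : ∀ n, rk q (s (n + 1)) < rk q (s n) := by
    intro n
    exact (hβ q (s n) (hall n) (α (s n)) (hα (s n) q) (by rw [hlen])).2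
  have := WellFounded.has_min (wellFounded_lt (α := Ordinal.{0})) (range fun n => rk q (s n))
    ⟨_, ⟨0, rfl⟩⟩
  obtain ⟨_, ⟨n, rfl⟩, hmin⟩ := this
  exact hmin _ ⟨n + 1, rfl⟩ (hdec n)

end Pool.U74.DSep
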