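import Pool.Agent.U74.DSep.Tree

/-!
# The square of the tree has a cofinal set which is a countable union of antichains
-/

open Set Cardinal

namespace Pool.U74.DSep

/-- the points of a node -/
def pts (t : Node) : Set K := {a | ∃ x, (a, x) ∈ t.A}

/-- the labels of `t` and `t'` at points `≤ x` contradict each other -/
def Contra (t t' : Node) (x : K) : Prop :=
  ∃ a a' r b b', a ≤ x ∧ a' ≤ x ∧ (a, r, b) ∈ t.A ∧ (a', r, b') ∈ t'.A ∧ b ≠ b'

/-- `σ` is the splitting point of `t` and `t'` -/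
def Start (t t' : Node) (σ : K) : Prop := IsLeast {x | Contra t t' x} σ ∧ σ ≤ t.m ∧ σ ≤ t'.m

/-- alternating between the points of two sets, above `σ` -/
inductive Chain (c c' : Set K) (σ : K) : ℕ → K → K → Prop
  | zero : Chain c c' σ 0 σ σ
  | succ {k : ℕ} {x y x1 y1 : K} : Chain c c' σ k x y → IsLeast {a | a ∈ c ∧ y < a} x1 →
      IsLeast {a | a ∈ c' ∧ x1 < a} y1 → Chain c c' σ (k + 1) x1 y1

/-- the `k`-th antichain -/
def Cfam (k : ℕ) : Set (Node × Node) :=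
  {p | ∃ σ, Start p.1 p.2 σ ∧ Chain (pts p.1) (pts p.2) σ k p.1.m p.2.m}

theorem chain_unique {c c' : Set K} {σ : K} {k : ℕ} {x y : K} (h : Chain c c' σ k x y) :
    ∀ {x' y' : K}, Chain c c' σ k x' y' → x = x' ∧ y = y' := by
  induction h with
  | zero =>
    intro x' y' h'
    cases h'
    exact ⟨rfl, rfl⟩
  | succ h1 h2 h3 ih =>
    intro x' y' h'
    cases h' with
    | succ g1 g2 g3 =>
      obtain ⟨-, rfl⟩ := ih g1
      have e1 := h2.unique g2
      subst e1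
      exact ⟨rfl, h3.unique g3⟩

theorem le_m_of_pts {t : Node} {a : K} (h : a ∈ pts t) : a ≤ t.m := by
  obtain ⟨x, hx⟩ := h
  exact t.le_m _ hx

theorem m_pts (t : Node) : t.m ∈ pts t := t.mem_m

theorem pts_iff {t v : Node} (h : t ≤ v) {a : K} (ha : a ≤ t.m) : a ∈ pts v ↔ a ∈ pts t := by
  constructor
  · rintro ⟨x, hx⟩
    exact ⟨x, (h.2 _).2 ⟨hx, ha⟩⟩
  · rintro ⟨x, hx⟩
    exact ⟨x, ((h.2 _).1 hx).1⟩

theorem least_mono {t v : Node} (h : t ≤ v) {y x : K} (hx : IsLeast {a | a ∈ pts t ∧ y < a} x) :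
    IsLeast {a | a ∈ pts v ∧ y < a} x := by
  have hxm := le_m_of_pts hx.1.1
  refine ⟨⟨(pts_iff h hxm).2 hx.1.1, hx.1.2⟩, ?_⟩
  rintro a ⟨ha, hya⟩
  rcases le_total a t.m with h1 | h1
  · exact hx.2 ⟨(pts_iff h h1).1 ha, hya⟩
  · exact hxm.trans h1

theorem chain_mono {t t' v v' : Node} (h : t ≤ v) (h' : t' ≤ v') {σ : K} {k : ℕ} {x y : K}
    (hc : Chain (pts t) (pts t') σ k x y) : Chain (pts v) (pts v') σ k x y := by
  induction hc with
  | zero => exact Chain.zero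
  | succ _ h2 h3 ih => exact Chain.succ ih (least_mono h h2) (least_mono h' h3)

theorem contra_iff {t t' v v' : Node} (h : t ≤ v) (h' : t' ≤ v') {x : K} (hx : x ≤ t.m)
    (hx' : x ≤ t'.m) : Contra v v' x ↔ Contra t t' x := by
  constructor
  · rintro ⟨a, a', r, b, b', h1, h2, h3, h4, h5⟩
    exact ⟨a, a', r, b, b', h1, h2, (h.2 _).2 ⟨h3, h1.trans hx⟩, (h'.2 _).2 ⟨h4, h2.trans hx'⟩, h5⟩
  · rintro ⟨a, a', r, b, b', h1, h2, h3, h4, h5⟩
    exact ⟨a, a', r, b, b', h1, h2, ((h.2 _).1 h3).1, ((h'.2 _).1 h4).1, h5⟩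

theorem start_mono {t t' v v' : Node} (h : t ≤ v) (h' : t' ≤ v') {σ : K} (hs : Start t t' σ) :
    Start v v' σ := by
  obtain ⟨⟨h1, h2⟩, h3, h4⟩ := hs
  refine ⟨⟨(contra_iff h h' h3 h4).2 h1, ?_⟩, h3.trans h.1, h4.trans h'.1⟩
  intro x hx
  by_contra hlt
  push Not at hlt
  have : Contra t t' x := (contra_iff h h' (hlt.le.trans h3) (hlt.le.trans h4)).1 hx
  exact absurd (h2 this) (not_le.2 hlt)

/-- Distinct elements of `Cfam k` are incompatible. -/
theorem antichain {k : ℕ} {p q : Node × Node} (hp : p ∈ Cfam k) (hq : q ∈ Cfam k) {v v' : Node}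
    (h1 : p.1 ≤ v) (h2 : p.2 ≤ v') (h3 : q.1 ≤ v) (h4 : q.2 ≤ v') : p = q := by
  obtain ⟨σ, hσ, hc⟩ := hp
  obtain ⟨τ, hτ, hd⟩ := hq
  have e := (start_mono h1 h2 hσ).1.unique (start_mono h3 h4 hτ).1
  subst e
  obtain ⟨e1, e2⟩ := chain_unique (chain_mono h1 h2 hc) (chain_mono h3 h4 hd)
  exact Prod.ext (eq_of_m_eq h1 h3 e1) (eq_of_m_eq h2 h4 e2)

theorem finite_chain {t t' : Node} {σ : K} (hs : Start t t' σ) :
    ¬ ∀ k, ∃ x y, Chain (pts t) (pts t') σ k x y := by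
  intro hall
  choose x y hxy using hall
  have h0 : x 0 = σ ∧ y 0 = σ := by
    have := hxy 0
    exact chain_unique this Chain.zero
  have hstep : ∀ k, IsLeast {a | a ∈ pts t ∧ y k < a} (x (k + 1)) ∧
      IsLeast {a | a ∈ pts t' ∧ x (k + 1) < a} (y (k + 1)) := by
    intro k
    have hk : ∀ {x1 y1}, Chain (pts t) (pts t') σ (k + 1) x1 y1 →
        IsLeast {a | a ∈ pts t ∧ y k < a} x1 ∧ IsLeast {a | a ∈ pts t' ∧ x1 < a} y1 := by
      intro x1 y1 h
      cases h with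
      | succ g1 g2 g3 =>
        obtain ⟨-, e⟩ := chain_unique g1 (hxy k)
        subst e
        exact ⟨g2, g3⟩
    exact hk (hxy (k + 1))
  have hyx : ∀ k, y k < x (k + 1) := fun k => (hstep k).1.1.2
  have hxy' : ∀ k, x (k + 1) < y (k + 1) := fun k => (hstep k).2.1.2
  have hxp : ∀ k, x (k + 1) ∈ pts t := fun k => (hstep k).1.1.1
  have hyp : ∀ k, y (k + 1) ∈ pts t' := fun k => (hstep k).2.1.1
  obtain ⟨δ, h1, h2⟩ := exists_lsub (fun k => x (k + 1))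
  have hyδ : ∀ k, y k < δ := fun k => (hyx k).trans (h1 k)
  have hL : Lim t.A δ := by
    refine ⟨⟨y 0, hyδ 0⟩, fun b hb => ?_⟩
    obtain ⟨k, hk⟩ := h2 b hb
    obtain ⟨w, hw⟩ := hxp (k + 1)
    exact ⟨_, hw, lt_of_le_of_lt hk ((hxy' k).trans (hyx (k + 1))), h1 (k + 1)⟩
  have hL' : Lim t'.A δ := by
    refine ⟨⟨y 0, hyδ 0⟩, fun b hb => ?_⟩
    obtain ⟨k, hk⟩ := h2 b hb
    obtain ⟨w, hw⟩ := hyp k
    exact ⟨_, hw, lt_of_le_of_lt hk (hxy' k), hyδ (k + 1)⟩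
  have heq : decl t.A δ = decl t'.A δ := S_disj _ _ δ (t.lim δ hL).2 (t'.lim δ hL').2
  obtain ⟨a, a', r, b, b', ha, ha', hm, hm', hne⟩ := hs.1.1
  have hσ : σ < δ := by
    have := hyδ 0
    rwa [h0.2] at this
  have h3 : (r, b) ∈ decl t.A δ := ⟨a, lt_of_le_of_lt ha hσ, hm⟩
  rw [heq] at h3
  obtain ⟨a'', -, h4⟩ := h3
  exact hne (t'.cons a'' a' r b b' h4 hm')

/-- `Cfam` is cofinal. -/
theorem exists_Cfam (t t' : Node) : ∃ k, ∃ p ∈ Cfam k, t ≤ p.1 ∧ t' ≤ p.2 := by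
  classical
  -- splitting
  obtain ⟨a, ha, ha'⟩ := exists_gt2 t.m t'.m
  have hr : ∃ r : ℝ, ∀ c b, (c, r, b) ∉ t.A ∧ (c, r, b) ∉ t'.A := by
    have hc : ((fun z : ℝ × Bool => z.1) '' (declAll t.A ∪ declAll t'.A)).Countable :=
      ((declAll_countable t).union (declAll_countable t')).image _
    have hne : ((fun z : ℝ × Bool => z.1) '' (declAll t.A ∪ declAll t'.A)) ≠ Set.univ := by
      intro h
      rw [h] at hc
      exact not_countable_univ hc
    obtain ⟨r, hr⟩ := (ne_univ_iff_exists_notMem _).1 hne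
    refine ⟨r, fun c b => ⟨fun h => hr ⟨(r, b), Or.inl ⟨c, h⟩, rfl⟩,
      fun h => hr ⟨(r, b), Or.inr ⟨c, h⟩, rfl⟩⟩⟩
  obtain ⟨r, hr⟩ := hr
  let u := extNode t a ha (r, false) (fun c b h => absurd h (hr c b).1)
  let u' := extNode t' a ha' (r, true) (fun c b h => absurd h (hr c b).2)
  have hu : t ≤ u := le_extNode _ _ _ _ _
  have hu' : t' ≤ u' := le_extNode _ _ _ _ _
  have hum : u.m = a := rfl
  have hum' : u'.m = a := rfl
  have hcon : Contra u u' a :=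
    ⟨a, a, r, false, true, le_rfl, le_rfl, mem_insert _ _, mem_insert _ _, by simp⟩
  obtain ⟨σ, hσ, hσmin⟩ := WellFounded.has_min (wellFounded_lt (α := K)) {x | Contra u u' x}
    ⟨a, hcon⟩
  have hσ' : Start u u' σ := by
    have hle : ∀ x, Contra u u' x → σ ≤ x := fun x hx => not_lt.1 (hσmin x hx)
    exact ⟨⟨hσ, hle⟩, hle a hcon, hle a hcon⟩
  -- two new top points
  obtain ⟨a1, h1, h1'⟩ := exists_gt2 u.m u'.m
  obtain ⟨a2, h2⟩ := exists_gt a1
  obtain ⟨v, hv, hvm, hvA⟩ := exists_ext u a1 h1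
  obtain ⟨v', hv', hvm', hvA'⟩ := exists_ext u' a2 (h1'.trans h2)
  have hsv : Start v v' σ := start_mono hv hv' hσ'
  have hfin := finite_chain hsv
  obtain ⟨k, x, y, hk, hk'⟩ : ∃ k x y, Chain (pts v) (pts v') σ k x y ∧
      ¬ ∃ x1 y1, Chain (pts v) (pts v') σ (k + 1) x1 y1 := by
    by_contra hno
    push Not at hno
    apply hfin
    intro k
    induction k with
    | zero => exact ⟨σ, σ, Chain.zero⟩
    | succ k ih =>
      obtain ⟨x, y, hxy⟩ := ih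
      exact hno k x y hxy
  have hleast : ∀ (c : Set K) (w a : K), a ∈ c → w < a → ∃ z, IsLeast {b | b ∈ c ∧ w < b} z ∧ z ≤ a := by
    intro c w a hac hwa
    obtain ⟨z, hz, hmin⟩ := WellFounded.has_min (wellFounded_lt (α := K)) {b | b ∈ c ∧ w < b}
      ⟨a, hac, hwa⟩
    exact ⟨z, ⟨hz, fun b hb => not_lt.1 (hmin b hb)⟩, not_lt.1 (hmin a ⟨hac, hwa⟩)⟩
  have hyle : y ≤ a2 ∧ (y < a2 → y < a1) := by
    have : y ∈ pts v' ∨ y = σ := by
      cases hk with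
      | zero => exact Or.inr rfl
      | succ _ _ g3 => exact Or.inl g3.1.1
    rcases this with h | h
    · refine ⟨by rw [← hvm']; exact le_m_of_pts h, fun hlt => ?_⟩
      obtain ⟨w, hw⟩ := h
      rcases hvA' _ hw with h3 | h3
      · exact lt_of_le_of_lt (u'.le_m _ h3) h1'
      · exact absurd hlt (by rw [show y = a2 from h3]; exact lt_irrefl _)
    · have : y < a1 := by
        rw [h]
        exact lt_of_le_of_lt hσ'.2.2 h1'
      exact ⟨this.le.trans h2.le, fun _ => this⟩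
  have hy : y = a2 := by
    by_contra hne
    have hlt : y < a2 := lt_of_le_of_ne hyle.1 hne
    have hya1 := hyle.2 hlt
    obtain ⟨x1, hx1, hx1a⟩ := hleast (pts v) y a1 (by rw [← hvm]; exact m_pts v) hya1
    obtain ⟨y1, hy1, -⟩ := hleast (pts v') x1 a2 (by rw [← hvm']; exact m_pts v')
      (lt_of_le_of_lt hx1a h2)
    exact hk' ⟨x1, y1, Chain.succ hk hx1 hy1⟩
  subst hy
  obtain ⟨b1, hb1⟩ := exists_gt y
  obtain ⟨b2, hb2⟩ := exists_gt b1
  have hb1v : v.m < b1 := by rw [hvm]; exact h2.trans hb1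
  have hb2v : v'.m < b2 := by rw [hvm']; exact hb1.trans hb2
  obtain ⟨w, hw, hwm, hwA⟩ := exists_ext v b1 hb1v
  obtain ⟨w', hw', hwm', hwA'⟩ := exists_ext v' b2 hb2v
  have hl1 : IsLeast {a | a ∈ pts w ∧ y < a} b1 := by
    refine ⟨⟨by rw [← hwm]; exact m_pts w, hb1⟩, ?_⟩
    rintro c ⟨⟨z, hz⟩, hc⟩
    rcases hwA _ hz with h | h
    · have := v.le_m _ h
      rw [hvm] at this
      exact absurd (lt_of_le_of_lt this h2) (not_lt.2 hc.le)
    · exact (show c = b1 from h).ge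
  have hl2 : IsLeast {a | a ∈ pts w' ∧ b1 < a} b2 := by
    refine ⟨⟨by rw [← hwm']; exact m_pts w', hb2⟩, ?_⟩
    rintro c ⟨⟨z, hz⟩, hc⟩
    rcases hwA' _ hz with h | h
    · have := v'.le_m _ h
      rw [hvm'] at this
      exact absurd (lt_of_le_of_lt this hb1) (not_lt.2 hc.le)
    · exact (show c = b2 from h).ge
  refine ⟨k + 1, (w, w'), ⟨σ, start_mono hw hw' hsv, ?_⟩, (hu.trans hv).trans hw,
    (hu'.trans hv').trans hw'⟩
  show Chain (pts w) (pts w') σ (k + 1) w.m w'.m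
  rw [hwm, hwm']
  exact Chain.succ (chain_mono hw hw' hk) hl1 hl2

end Pool.U74.DSep
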