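import Pool.Agent.U74.DSep.Hom

/-!
# The tree

Nodes are countable closed sets of elements of `K = 𝔠⁺` with a last element, every element
carrying a label in `ℝ × Bool`; the labels of a node form a partial function `ℝ ⇀ Bool`; a limit
point `δ` of a node must belong to the stationary set attached to the set of labels occurring
below `δ`.  Nodes are ordered by end extension.
-/

open Set Cardinal

namespace Pool.U74.DSep

/-- The countable sets of labels: at most continuum many. -/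
theorem mk_countable_sets : #{D : Set (ℝ × Bool) // D.Countable} ≤ 𝔠 := by
  let F : (ℕ → Option (ℝ × Bool)) → {D : Set (ℝ × Bool) // D.Countable} := fun f =>
    ⟨{x | ∃ n, f n = some x}, by
      have : {x | ∃ n, f n = some x} ⊆ ⋃ n, {x | f n = some x} := by
        rintro x ⟨n, hn⟩
        exact mem_iUnion.2 ⟨n, hn⟩
      refine Countable.mono this (countable_iUnion fun n => ?_)
      apply Set.Subsingleton.countable
      intro x hx y hy
      have hx' : f n = some x := hx
      have hy' : f n = some y := hy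
      rw [hx'] at hy'
      exact Option.some.inj hy'⟩
  have hF : Function.Surjective F := by
    rintro ⟨D, hD⟩
    rcases D.eq_empty_or_nonempty with rfl | hne
    · refine ⟨fun _ => none, ?_⟩
      apply Subtype.ext
      ext x
      simp [F]
    · obtain ⟨f, hf⟩ := hD.exists_eq_range hne
      refine ⟨fun n => some (f n), ?_⟩
      apply Subtype.ext
      ext x
      simp [F, hf, eq_comm]
  have h1 := mk_le_of_surjective hF
  refine h1.trans ?_
  have h2 : #(Option (ℝ × Bool)) ≤ 𝔠 := by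
    rw [mk_option, mk_prod]
    simp only [lift_id, mk_real]
    have : #Bool ≤ (𝔠 : Cardinal.{0}) := by
      simpa using (nat_lt_continuum 2).le
    calc 𝔠 * #Bool + 1 ≤ 𝔠 * 𝔠 + 𝔠 := by
          gcongr
          exact Cardinal.one_le_aleph0.trans aleph0_le_continuum
      _ = 𝔠 := by simp
  calc #(ℕ → Option (ℝ × Bool)) = #(Option (ℝ × Bool)) ^ (ℵ₀ : Cardinal.{0}) := by simp
    _ ≤ 𝔠 ^ (ℵ₀ : Cardinal.{0}) := Cardinal.power_le_power_right h2
    _ = 𝔠 := continuum_power_aleph0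

theorem exists_S : ∃ S : Set (ℝ × Bool) → Set K, (∀ D, D.Countable → Stat (S D)) ∧
    ∀ D D' δ, δ ∈ S D → δ ∈ S D' → D = D' := by
  obtain ⟨S, h1, h2⟩ := exists_partition {D : Set (ℝ × Bool) // D.Countable} mk_countable_sets
  refine ⟨fun D => {δ | ∃ h : D.Countable, δ ∈ S ⟨D, h⟩}, ?_, ?_⟩
  · intro D hD g
    obtain ⟨δ, hδ, h⟩ := h1 ⟨D, hD⟩ g
    exact ⟨δ, ⟨hD, hδ⟩, h⟩
  · rintro D D' δ ⟨h, hS⟩ ⟨h', hS'⟩
    exact congrArg Subtype.val (h2 _ _ δ hS hS')

/-- Pairwise disjoint stationary sets attached to the countable sets of labels. -/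
noncomputable def S : Set (ℝ × Bool) → Set K := exists_S.choose

theorem S_stat : ∀ D, D.Countable → Stat (S D) := exists_S.choose_spec.1

theorem S_disj : ∀ D D' δ, δ ∈ S D → δ ∈ S D' → D = D' := exists_S.choose_spec.2

/-- the labels occurring below `δ` -/
def decl (A : Set (K × ℝ × Bool)) (δ : K) : Set (ℝ × Bool) := {x | ∃ a < δ, (a, x) ∈ A}

/-- all labels -/
def declAll (A : Set (K × ℝ × Bool)) : Set (ℝ × Bool) := {x | ∃ a, (a, x) ∈ A}

/-- `δ` is a limit point of (the first coordinates of) `A` -/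
def Lim (A : Set (K × ℝ × Bool)) (δ : K) : Prop :=
  (∃ b, b < δ) ∧ ∀ b < δ, ∃ z ∈ A, b < z.1 ∧ z.1 < δ

/-- The nodes of the tree. -/
@[ext]
structure Node where
  /-- labelled points -/
  A : Set (K × ℝ × Bool)
  /-- last point -/
  m : K
  cnt : A.Countable
  mem_m : ∃ x, (m, x) ∈ A
  le_m : ∀ z ∈ A, z.1 ≤ m
  cons : ∀ a a' r b b', (a, r, b) ∈ A → (a', r, b') ∈ A → b = b'
  lim : ∀ δ, Lim A δ → (∃ x, (δ, x) ∈ A) ∧ δ ∈ S (decl A δ)

theorem declAll_countable (t : Node) : (declAll t.A).Countable := by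
  have : declAll t.A = (fun z : K × ℝ × Bool => z.2) '' t.A := by
    ext x
    constructor
    · rintro ⟨a, ha⟩
      exact ⟨(a, x), ha, rfl⟩
    · rintro ⟨⟨a, y⟩, hz, rfl⟩
      exact ⟨a, hz⟩
  rw [this]
  exact t.cnt.image _

instance : PartialOrder Node where
  le t t' := t.m ≤ t'.m ∧ ∀ z, z ∈ t.A ↔ z ∈ t'.A ∧ z.1 ≤ t.m
  le_refl t := ⟨le_refl _, fun z => ⟨fun h => ⟨h, t.le_m z h⟩, fun h => h.1⟩⟩
  le_trans t t' t'' h h' := by
    refine ⟨h.1.trans h'.1, fun z => ?_⟩
    rw [h.2 z, h'.2 z]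
    constructor
    · rintro ⟨⟨h1, -⟩, h3⟩
      exact ⟨h1, h3⟩
    · rintro ⟨h1, h3⟩
      exact ⟨⟨h1, h3.trans h.1⟩, h3⟩
  le_antisymm t t' h h' := by
    have hm : t.m = t'.m := le_antisymm h.1 h'.1
    apply Node.ext
    · ext z
      rw [h.2 z]
      constructor
      · exact fun h => h.1
      · intro hz
        refine ⟨hz, ?_⟩
        rw [hm]
        exact t'.le_m z hz
    · exact hm

theorem le_def (t t' : Node) : t ≤ t' ↔ t.m ≤ t'.m ∧ ∀ z, z ∈ t.A ↔ z ∈ t'.A ∧ z.1 ≤ t.m :=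
  Iff.rfl

/-- Two nodes below a common node are comparable. -/
theorem tree {t u v : Node} (ht : t ≤ v) (hu : u ≤ v) (h : t.m ≤ u.m) : t ≤ u := by
  refine ⟨h, fun z => ?_⟩
  rw [ht.2 z, hu.2 z]
  constructor
  · rintro ⟨h1, h2⟩
    exact ⟨⟨h1, h2.trans h⟩, h2⟩
  · rintro ⟨⟨h1, -⟩, h2⟩
    exact ⟨h1, h2⟩

theorem eq_of_m_eq {t u v : Node} (ht : t ≤ v) (hu : u ≤ v) (h : t.m = u.m) : t = u :=
  le_antisymm (tree ht hu h.le) (tree hu ht h.ge)

theorem m_lt_of_lt {t u : Node} (h : t < u) : t.m < u.m := by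
  rcases lt_or_eq_of_le h.le.1 with h1 | h1
  · exact h1
  · exact absurd (eq_of_m_eq h.le le_rfl h1) h.ne

/-- One point end extension. -/
def extNode (t : Node) (a : K) (ha : t.m < a) (x : ℝ × Bool)
    (hx : ∀ a' b', (a', x.1, b') ∈ t.A → b' = x.2) : Node where
  A := insert (a, x) t.A
  m := a
  cnt := t.cnt.insert _
  mem_m := ⟨x, mem_insert _ _⟩
  le_m := by
    rintro z (rfl | hz)
    · exact le_rfl
    · exact (t.le_m z hz).trans ha.le
  cons := by
    rintro c c' r b b' (h | h) (h' | h')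
    · have h1 : (r, b) = x := congrArg Prod.snd h
      have h2 : (r, b') = x := congrArg Prod.snd h'
      exact congrArg Prod.snd (h1.trans h2.symm)
    · have h1 : (r, b) = x := congrArg Prod.snd h
      have : b' = x.2 := hx c' b' (by rw [← h1]; exact h')
      rw [this, ← h1]
    · have h1 : (r, b') = x := congrArg Prod.snd h'
      have : b = x.2 := hx c b (by rw [← h1]; exact h)
      rw [this, ← h1]
    · exact t.cons c c' r b b' h h'
  lim := by
    intro δ hδ
    have hδa : δ ≤ a := by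
      by_contra h
      push Not at h
      obtain ⟨z, hz, h1, h2⟩ := hδ.2 a h
      rcases hz with rfl | hz
      · exact lt_irrefl _ h1
      · exact absurd ((t.le_m z hz).trans ha.le) (not_le.2 h1)
    have hδm : δ ≤ t.m := by
      by_contra h
      push Not at h
      obtain ⟨z, hz, h1, h2⟩ := hδ.2 t.m h
      rcases hz with rfl | hz
      · exact absurd h2 (not_lt.2 hδa)
      · exact absurd (t.le_m z hz) (not_le.2 h1)
    have hL : Lim t.A δ := by
      refine ⟨hδ.1, fun b hb => ?_⟩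
      obtain ⟨z, hz, h1, h2⟩ := hδ.2 b hb
      rcases hz with rfl | hz
      · exact absurd (h2.trans_le hδm) (not_lt.2 ha.le)
      · exact ⟨z, hz, h1, h2⟩
    obtain ⟨⟨y, hy⟩, h2⟩ := t.lim δ hL
    refine ⟨⟨y, mem_insert_of_mem _ hy⟩, ?_⟩
    have : decl (insert (a, x) t.A) δ = decl t.A δ := by
      ext w
      constructor
      · rintro ⟨c, hc, h | h⟩
        · have : c = a := congrArg Prod.fst h
          rw [this] at hc
          exact absurd (hc.trans_le hδm) (not_lt.2 ha.le)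
        · exact ⟨c, hc, h⟩
      · rintro ⟨c, hc, h⟩
        exact ⟨c, hc, mem_insert_of_mem _ h⟩
    rw [this]
    exact h2

theorem le_extNode (t : Node) (a : K) (ha : t.m < a) (x : ℝ × Bool)
    (hx : ∀ a' b', (a', x.1, b') ∈ t.A → b' = x.2) : t ≤ extNode t a ha x hx := by
  refine ⟨ha.le, fun z => ⟨fun h => ⟨mem_insert_of_mem _ h, t.le_m z h⟩, ?_⟩⟩
  rintro ⟨h | h, h2⟩
  · rw [h] at h2
    exact absurd ha (not_lt.2 h2)
  · exact h

/-- extension by one point `a` (repeating an old label) -/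
theorem exists_ext (t : Node) (a : K) (ha : t.m < a) :
    ∃ t', t ≤ t' ∧ t'.m = a ∧ ∀ z ∈ t'.A, z ∈ t.A ∨ z.1 = a := by
  obtain ⟨x, hx⟩ := t.mem_m
  have hx' : ∀ a' b', (a', x.1, b') ∈ t.A → b' = x.2 := fun a' b' h =>
    t.cons a' t.m x.1 b' x.2 h hx
  refine ⟨extNode t a ha x hx', le_extNode _ _ _ _ _, rfl, ?_⟩
  rintro z (h | h)
  · exact Or.inr (congrArg Prod.fst h)
  · exact Or.inl h

/-- limit nodes -/
theorem exists_limit (t : ℕ → Node) (ht : ∀ n, t n ≤ t (n + 1)) (δ : K) (h1 : ∀ n, (t n).m < δ)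
    (h2 : ∀ b < δ, ∃ n, b < (t n).m) (hS : δ ∈ S (⋃ n, declAll (t n).A)) :
    ∃ t', (∀ n, t n ≤ t') ∧ t'.m = δ := by
  have hmono : Monotone t := monotone_nat_of_le_succ ht
  obtain ⟨x, hx⟩ := (t 0).mem_m
  have hcmp : ∀ n z, z ∈ (⋃ n, (t n).A) → z.1 ≤ (t n).m → z ∈ (t n).A := by
    intro n z hz hzm
    obtain ⟨k, hk⟩ := mem_iUnion.1 hz
    rcases le_total k n with h | h
    · exact (((hmono h).2 z).1 hk).1
    · exact ((hmono h).2 z).2 ⟨hk, hzm⟩
  have hx0 : ∀ n, ((t 0).m, x) ∈ (t n).A := fun n => (((hmono (Nat.zero_le n)).2 _).1 hx).1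
  refine ⟨{ A := insert (δ, x) (⋃ n, (t n).A)
            m := δ
            cnt := (countable_iUnion fun n => (t n).cnt).insert _
            mem_m := ⟨x, mem_insert _ _⟩
            le_m := ?_
            cons := ?_
            lim := ?_ }, ?_, rfl⟩
  · rintro z (rfl | hz)
    · exact le_rfl
    · obtain ⟨k, hk⟩ := mem_iUnion.1 hz
      exact ((t k).le_m z hk).trans (h1 k).le
  · rintro c c' r b b' h h'
    have key : ∀ c r b, (c, r, b) ∈ insert (δ, x) (⋃ n, (t n).A) →
        ∃ n c', (c', r, b) ∈ (t n).A := by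
      rintro c r b (h | h)
      · have h1 : (r, b) = x := congrArg Prod.snd h
        exact ⟨0, (t 0).m, by rw [h1]; exact hx⟩
      · obtain ⟨k, hk⟩ := mem_iUnion.1 h
        exact ⟨k, c, hk⟩
    obtain ⟨n, d, hd⟩ := key c r b h
    obtain ⟨n', d', hd'⟩ := key c' r b' h'
    have e1 := (((hmono (le_max_left n n')).2 _).1 hd).1
    have e2 := (((hmono (le_max_right n n')).2 _).1 hd').1
    exact (t (max n n')).cons d d' r b b' e1 e2
  · intro ε hε
    have hεδ : ε ≤ δ := by
      by_contra h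
      push Not at h
      obtain ⟨z, hz, h3, h4⟩ := hε.2 δ h
      rcases hz with rfl | hz
      · exact lt_irrefl _ h3
      · obtain ⟨k, hk⟩ := mem_iUnion.1 hz
        exact absurd (((t k).le_m z hk).trans (h1 k).le) (not_le.2 h3)
    rcases eq_or_lt_of_le hεδ with rfl | hlt
    · refine ⟨⟨x, mem_insert _ _⟩, ?_⟩
      have : decl (insert (ε, x) (⋃ n, (t n).A)) ε = ⋃ n, declAll (t n).A := by
        ext w
        constructor
        · rintro ⟨c, hc, h | h⟩
          · have : c = ε := congrArg Prod.fst h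
            exact absurd hc (by rw [this]; exact lt_irrefl _)
          · obtain ⟨k, hk⟩ := mem_iUnion.1 h
            exact mem_iUnion.2 ⟨k, c, hk⟩
        · intro h
          obtain ⟨k, c, hk⟩ := mem_iUnion.1 h
          exact ⟨c, lt_of_le_of_lt ((t k).le_m _ hk) (h1 k),
            mem_insert_of_mem _ (mem_iUnion.2 ⟨k, hk⟩)⟩
      rw [this]
      exact hS
    · obtain ⟨n, hn⟩ := h2 ε hlt
      have hL : Lim (t n).A ε := by
        refine ⟨hε.1, fun b hb => ?_⟩
        obtain ⟨z, hz, h3, h4⟩ := hε.2 b hb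
        rcases hz with rfl | hz
        · exact absurd h4 (not_lt.2 hlt.le)
        · exact ⟨z, hcmp n z hz (h4.le.trans hn.le), h3, h4⟩
      obtain ⟨⟨y, hy⟩, h5⟩ := (t n).lim ε hL
      refine ⟨⟨y, mem_insert_of_mem _ (mem_iUnion.2 ⟨n, hy⟩)⟩, ?_⟩
      have : decl (insert (δ, x) (⋃ n, (t n).A)) ε = decl (t n).A ε := by
        ext w
        constructor
        · rintro ⟨c, hc, h | h⟩
          · have : c = δ := congrArg Prod.fst h
            rw [this] at hc
            exact absurd hc (not_lt.2 hlt.le)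
          · exact ⟨c, hc, hcmp n _ h (hc.le.trans hn.le)⟩
        · rintro ⟨c, hc, h⟩
          exact ⟨c, hc, mem_insert_of_mem _ (mem_iUnion.2 ⟨n, h⟩)⟩
      rw [this]
      exact h5
  · intro n
    refine ⟨(h1 n).le, fun z => ⟨fun h => ⟨mem_insert_of_mem _ (mem_iUnion.2 ⟨n, h⟩),
      (t n).le_m z h⟩, ?_⟩⟩
    rintro ⟨h | h, h3⟩
    · rw [h] at h3
      exact absurd (h1 n) (not_lt.2 h3)
    · exact hcmp n z h h3

end Pool.U74.DSep
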